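import Pool.Agent.Y7.LN.Stm
import Pool.Agent.Y6.N.P3

set_option autoImplicit false

/-! Project LN: after its time a mode is not positive. -/

open Set Filter Topology MeasureTheory Metric

namespace Pool.Agent.Y339.LN.POSB

open Pool.Agent.Y5 (Pr Pr_cont Pr_deriv Pr_mono Pr_zero mono_of incr_le)
open Pool.Agent.Y6.N (src ph pos_gron)
open Pool.Agent.Y303.EJ (SeqE Num dl e0 Sg Q)
open Pool.Agent.Y7.LN

variable {η T : ℝ} {lm L C ℓ : ℕ → ℝ} {B : ℕ → ℕ → ℝ} {N : ℕ} {x R : ℕ → ℝ → ℝ}

theorem xle (h : Cb η lm L C ℓ B N T x R) (n : ℕ) {t : ℝ} (ht : t ∈ Ico 0 T) :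
    |x n t| ≤ R n t := by
  apply abs_le_of_sq_le_sq _ (h.R0 n t ht)
  have h1 := h.Rsq n t ht
  nlinarith [sq_nonneg (R (n + 1) t)]

theorem Rstep (h : Cb η lm L C ℓ B N T x R) (n : ℕ) {t : ℝ} (ht : t ∈ Ico 0 T) :
    R (n + 1) t ≤ R n t := by
  apply le_of_sq_le_sq _ (h.R0 n t ht)
  have h1 := h.Rsq n t ht
  nlinarith [sq_nonneg (x n t)]

theorem Rle1 (h : Cb η lm L C ℓ B N T x R) (n : ℕ) {t : ℝ} (ht : t ∈ Ico 0 T) :
    R n t ≤ 1 := by
  induction n with
  | zero => exact h.R1 t ht
  | succ n ih => exact (Rstep h n ht).trans ih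

theorem xle1 (h : Cb η lm L C ℓ B N T x R) (n : ℕ) {t : ℝ} (ht : t ∈ Ico 0 T) :
    |x n t| ≤ 1 := (xle h n ht).trans (Rle1 h n ht)

theorem Lpos (h : Cb η lm L C ℓ B N T x R) (n : ℕ) : 0 < L n :=
  lt_of_lt_of_le one_pos (h.nm.L1 n)

theorem sN_nonneg (h : Cb η lm L C ℓ B N T x R) (n : ℕ) : 0 ≤ sN lm L N n :=
  Finset.sum_nonneg fun m _ => (h.wn.w0 m).le

theorem Pr_le {f : ℝ → ℝ} {T a b c : ℝ} (hf : ContinuousOn f (Ico 0 T)) (ha : a ∈ Ico 0 T)
    (hb : b ∈ Ico 0 T) (hab : a ≤ b) (h : ∀ t ∈ Ioo a b, f t ≤ c) :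
    Pr f b - Pr f a ≤ c * (b - a) := by
  have := incr_le (f := fun t => c * t) (f' := fun _ => c) hf ha hb hab (by fun_prop)
    (fun t _ => by simpa using (hasDerivAt_id t).const_mul c) h
  linarith

theorem Tle (h : Cb η lm L C ℓ B N T x R) : T ≤ lm 0 := by
  have h1 := h.hT1
  have h2 := h.nm.L1 0
  have h3 := h.hT
  nlinarith

/-- the positive part of the strain -/
theorem cont_pos (h : Cb η lm L C ℓ B N T x R) (i : ℕ) :
    ContinuousOn (fun s => L i * max (x i s) 0) (Ico 0 T) :=
  continuousOn_const.mul ((h.cx i).sup continuousOn_const)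

theorem pos_nonneg (h : Cb η lm L C ℓ B N T x R) (i : ℕ) (s : ℝ) :
    0 ≤ L i * max (x i s) 0 := mul_nonneg (Lpos h i).le (le_max_right _ _)

theorem pos_le (h : Cb η lm L C ℓ B N T x R) (i : ℕ) {s : ℝ} (hs : s ∈ Ico 0 T) :
    L i * max (x i s) 0 ≤ L i :=
  mul_le_of_le_one_right (Lpos h i).le (max_le ((abs_le.1 (xle1 h i hs)).2) zero_le_one)

/-- the total growth due to the mode `i` -/
theorem Pr_pos_le (h : Cb η lm L C ℓ B N T x R) (i : ℕ) {u c : ℝ} (hu : u ∈ Ico 0 T)
    (hc : 0 ≤ c) (hb : ∀ s ∈ Ioo (sN lm L N i) u, x i s ≤ c) :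
    Pr (fun s => L i * max (x i s) 0) u ≤ 2 * √(lm i) + L i * c * T := by
  have h0 : (0 : ℝ) ∈ Ico 0 T := ⟨le_rfl, h.hT⟩
  have hLi := Lpos h i
  have hs0 := sN_nonneg h i
  have h2 : L i * sN lm L N i ≤ 2 * √(lm i) := by
    have h3 := h.wn.ws N i
    have h4 : L i * wd lm L i = √(lm i) := by
      unfold wd; field_simp
    have h5 := mul_le_mul_of_nonneg_left h3 hLi.le
    linarith
  have hT := h.hT
  have h3 : 0 ≤ L i * c * T := by positivity
  rcases le_total u (sN lm L N i) with hus | hus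
  · have h1 := Pr_le (cont_pos h i) h0 hu hu.1 (c := L i) (fun s hs =>
      pos_le h i ⟨hs.1.le, hs.2.trans hu.2⟩)
    rw [Pr_zero] at h1
    have h6 : L i * (u - 0) ≤ L i * sN lm L N i := by
      rw [sub_zero]
      exact mul_le_mul_of_nonneg_left hus hLi.le
    linarith
  · have hsm : sN lm L N i ∈ Ico 0 T := ⟨hs0, hus.trans_lt hu.2⟩
    have h1 := Pr_le (cont_pos h i) h0 hsm hs0 (c := L i) (fun s hs =>
      pos_le h i ⟨hs.1.le, hs.2.trans hsm.2⟩)
    rw [Pr_zero] at h1
    have h6 := Pr_le (cont_pos h i) hsm hu hus (c := L i * c) (fun s hs =>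
      mul_le_mul_of_nonneg_left (max_le (hb s hs) hc) hLi.le)
    have h7 : L i * c * (u - sN lm L N i) ≤ L i * c * T := by
      refine mul_le_mul_of_nonneg_left ?_ (by positivity)
      linarith [hu.2]
    linarith

theorem e0_pos : 0 < e0 lm := by unfold e0; positivity

theorem lm_mono (h : Cb η lm L C ℓ B N T x R) (n : ℕ) : lm n ≤ lm (n + 1) := by
  have h1 := h.sq.lm_grow n
  have h2 := h.nm.d0 (n + 1)
  have h3 := h.nm.d1 (n + 1)
  have h4 := h.nm.lm1 n
  have h5 := h.nm.lm1 (n + 1)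
  have h6 : dl η (n + 1) ^ 4 ≤ 1 := pow_le_one₀ h2.le (by linarith)
  have h7 : dl η (n + 1) ^ 4 * lm (n + 1) ≤ 1 * lm (n + 1) :=
    mul_le_mul_of_nonneg_right h6 (by linarith)
  linarith

theorem lmsum' (h : Cb η lm L C ℓ B N T x R) (j : ℕ) :
    ∑ i ∈ Finset.range (j + 1), lm i ≤ 11 / 10 * lm j := by
  have h4 := h.nm.lm1 j
  rcases j with _ | j
  · rw [Finset.sum_range_one]; linarith
  · rw [Finset.sum_range_succ]
    have h1 := h.nm.lmsum j
    have h2 := h.nm.d0 (j + 1)
    have h3 := h.nm.d1 (j + 1)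
    have h5 : dl η (j + 1) * lm (j + 1) ≤ 1 / 100 * lm (j + 1) :=
      mul_le_mul_of_nonneg_right h3 (by linarith)
    linarith

theorem two_le_exp {y : ℝ} (hy : 1 ≤ y) : 2 ≤ Real.exp y := by
  have := Real.add_one_le_exp y
  linarith

theorem exp_small {y : ℝ} (hy : 10 ^ 4 ≤ y) : Real.exp (-y) ≤ 1 / 1000 := by
  rw [Real.exp_neg, inv_eq_one_div]
  refine one_div_le_one_div_of_le (by norm_num) ?_
  have := Real.add_one_le_exp y
  linarith

theorem t_POSB (hL : S_LIPB) : S_POSB := by
  intro η lm L C ℓ B N T x R h j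
  induction j using Nat.strong_induction_on with
  | _ j ih =>
  intro t hj ht hyp u hu
  set n := j + 1 with hn
  set a := sN lm L N n with ha
  have ha0 : 0 ≤ a := sN_nonneg h n
  have hau : a ≤ u := hu.1
  have huT : u < T := hu.2.trans_lt ht.2
  have hu0 : 0 ≤ u := ha0.trans hau
  have huI : u ∈ Ico 0 T := ⟨hu0, huT⟩
  have haI : a ∈ Ico 0 T := ⟨ha0, hau.trans_lt huT⟩
  have hT := h.hT
  have hTl := Tle h
  have hd0 := h.nm.d0 j
  have hd1 := h.nm.d1 j
  have hlmj := h.nm.lm1 j
  have hlm0 := h.nm.lm1 0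
  have hQ0 : 0 < Q η lm j := Real.exp_pos _
  have hTQ : T ≤ Q η lm j := hTl.trans (h.nm.Qlm j 0 (by omega))
  have hLj := Lpos h j
  have hLn := Lpos h n
  -- the rate
  set P : ℝ → ℝ := fun τ => (∑ i ∈ Finset.range n, Pr (fun s => L i * max (x i s) 0) τ) +
    (e0 lm + C n * L n) * τ with hP
  set P' : ℝ → ℝ := fun τ => (∑ i ∈ Finset.range n, L i * max (x i τ) 0) +
    (e0 lm + C n * L n) with hP'
  have hPc : ContinuousOn P (Ico 0 T) :=
    (continuousOn_finsetSum _ fun i _ => Pr_cont (cont_pos h i)).add (by fun_prop)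
  have hPd : ∀ τ ∈ Ioo 0 T, HasDerivAt P (P' τ) τ := by
    intro τ hτ
    have h1 : HasDerivAt (∑ i ∈ Finset.range n, Pr (fun s => L i * max (x i s) 0))
        (∑ i ∈ Finset.range n, L i * max (x i τ) 0) τ :=
      HasDerivAt.sum fun i _ => Pr_deriv (cont_pos h i) hτ
    have h2 : HasDerivAt (fun τ => (e0 lm + C n * L n) * τ) (e0 lm + C n * L n) τ := by
      simpa using (hasDerivAt_id τ).const_mul (e0 lm + C n * L n)
    have h3 := h1.add h2
    refine h3.congr_of_eventuallyEq (Filter.Eventually.of_forall fun s => ?_)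
    simp only [hP, Pi.add_apply, Finset.sum_apply]
  have hCn := h.nm.C0 n
  have hCj := h.nm.C0 j
  have hrate : 0 ≤ e0 lm + C n * L n := by
    have := e0_pos (lm := lm)
    positivity
  have hP'0 : ∀ τ, 0 ≤ P' τ := fun τ =>
    add_nonneg (Finset.sum_nonneg fun i _ => pos_nonneg h i τ) hrate
  set K : ℝ := L j * C j + ph lm n with hK
  have hph : 0 < ph lm n := Real.exp_pos _
  have hK0 : 0 ≤ K := by positivity
  -- Gronwall
  have key := pos_gron (g := fun τ => x n (a + τ)) (g' := fun τ => deriv (x n) (a + τ))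
    (Q := fun τ => P (a + τ)) (Q' := fun τ => P' (a + τ)) (b := u - a) (ζ := K)
    (by linarith) hK0
    (by
      refine (h.cx n).comp (by fun_prop) ?_
      intro τ hτ
      exact ⟨by linarith [hτ.1], by linarith [hτ.2]⟩)
    (by
      intro τ hτ
      obtain ⟨v, hv, -⟩ := h.dx n hj (a + τ) ⟨by linarith [hτ.1], by linarith [hτ.2]⟩
      rw [hv.deriv]
      exact hv.comp_const_add a τ)
    (by
      refine hPc.comp (by fun_prop) ?_
      intro τ hτ
      exact ⟨by linarith [hτ.1], by linarith [hτ.2]⟩)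
    (by
      intro τ hτ
      exact (hPd (a + τ) ⟨by linarith [hτ.1], by linarith [hτ.2]⟩).comp_const_add a τ)
    (fun τ _ => hP'0 _)
    (by
      rw [add_zero]
      exact hyp n le_rfl (hau.trans hu.2))
    (by
      intro τ hτ hg
      set s := a + τ with hs
      have hsI : s ∈ Ioo 0 T := ⟨by linarith [hτ.1], by linarith [hτ.2]⟩
      have hsI' : s ∈ Ico 0 T := ⟨hsI.1.le, hsI.2⟩
      obtain ⟨v, hv, hb⟩ := h.dx n hj s hsI
      rw [hv.deriv]
      have hg' : 0 ≤ x n s := hg
      have h1 := (abs_le.1 hb).2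
      rw [abs_of_nonneg hg'] at h1
      have h2 : Sg L x n s * x n s ≤ (∑ i ∈ Finset.range n, L i * max (x i s) 0) * x n s := by
        refine mul_le_mul_of_nonneg_right ?_ hg'
        unfold Sg
        exact Finset.sum_le_sum fun i _ =>
          mul_le_mul_of_nonneg_left (le_max_left _ _) (Lpos h i).le
      have h3 : src L C x n s ≤ L j * C j := by
        unfold src
        rw [if_neg (by omega)]
        have e : n - 1 = j := by omega
        rw [e]
        have hx := xle1 h j hsI'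
        have hx2 : x j s ^ 2 ≤ 1 := by
          rw [← sq_abs]
          nlinarith [abs_nonneg (x j s)]
        exact mul_le_of_le_one_right (by positivity) hx2
      have h4 : 0 ≤ ℓ n * x n s := mul_nonneg (h.sq.ℓ_nonneg n) hg'
      have hR1 := Rle1 h (n + 1) hsI'
      have hR0 := h.R0 (n + 1) s hsI'
      have h5 : Real.exp (-(lm (n + 1) / 2)) * R (n + 1) s ^ 2 ≤ L n * R (n + 1) s ^ 2 := by
        refine mul_le_mul_of_nonneg_right ?_ (sq_nonneg _)
        have : Real.exp (-(lm (n + 1) / 2)) ≤ 1 := by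
          rw [Real.exp_le_one_iff]
          have := h.nm.lm1 (n + 1)
          linarith
        exact this.trans (h.nm.L1 n)
      have h6 : C n * L n * x n s * R (n + 1) s ≤ C n * L n * x n s * 1 :=
        mul_le_mul_of_nonneg_left hR1 (by positivity)
      have h7 : P' s * x n s = (∑ i ∈ Finset.range n, L i * max (x i s) 0) * x n s +
          (e0 lm + C n * L n) * x n s := by
        simp only [hP']; ring
      show v ≤ P' s * x n s + K
      rw [h7, hK]
      linarith)
  rw [show a + (u - a) = u by ring, add_zero] at key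
  -- the exponent
  have hbound : ∀ i ∈ Finset.range n, Pr (fun s => L i * max (x i s) 0) u ≤ lm i / 900 := by
    intro i hi
    have hi' : i ≤ j := by have := Finset.mem_range.1 hi; omega
    have hli := h.nm.lm1 i
    have hsq : √(lm i) ≤ lm i / 10 ^ 15 := by
      have h1 : (10 : ℝ) ^ 15 ≤ √(lm i) := by
        refine Real.le_sqrt_of_sq_le ?_
        calc ((10 : ℝ) ^ 15) ^ 2 = 10 ^ 30 := by norm_num
          _ ≤ lm i := hli
      have h2 : √(lm i) * √(lm i) = lm i := Real.mul_self_sqrt (by linarith)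
      rw [le_div_iff₀ (by norm_num)]
      nlinarith
    rcases i with _ | i'
    · -- the mode 0
      have h1 := Pr_pos_le h 0 (u := u) (c := 1 / 1000) huI (by norm_num) (by
        intro s hs
        have hs0 := sN_nonneg h 0
        have hsT : s < T := hs.2.trans huT
        have h2 := (hL η lm L C ℓ B N T x R h (sN lm L N 0) s hs0 hs.1.le hsT).2
        have h3 := hyp 0 (by omega) (hs.1.le.trans (hs.2.le.trans hu.2))
        linarith)
      have h2 : L 0 * (1 / 1000) * T ≤ lm 0 / 1000 := by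
        have := h.hT1
        linarith
      linarith
    · have h1 := Pr_pos_le h (i' + 1) (u := u) (c := Real.exp (-(lm i'))) huI
        (Real.exp_pos _).le (by
        intro s hs
        exact ih i' (by omega) t (by omega) ht (fun k hk hk2 => hyp k (by omega) hk2) s
          ⟨hs.1.le, hs.2.le.trans hu.2⟩)
      have h2 : L (i' + 1) * Real.exp (-(lm i')) * T ≤ 1 / 1000 := by
        have a1 := h.nm.QL i' (i' + 1) (by omega)
        have a2 : T ≤ Q η lm i' := hTl.trans (h.nm.Qlm i' 0 (by omega))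
        have a3 := h.nm.Qexp i' 2 (-1) (-(1 / 2)) (by
          have := h.nm.d1 i'
          have := h.nm.d0 i'
          push_cast
          linarith)
        have a4 : 0 < Q η lm i' := Real.exp_pos _
        have hli' := h.nm.lm1 i'
        calc L (i' + 1) * Real.exp (-(lm i')) * T
            ≤ Q η lm i' * Real.exp (-(lm i')) * Q η lm i' := by gcongr
          _ = Q η lm i' ^ 2 * Real.exp (-1 * lm i') := by rw [neg_one_mul]; ring
          _ ≤ Real.exp (-(1 / 2) * lm i') := a3
          _ = Real.exp (-(1 / 2 * lm i')) := by rw [neg_mul]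
          _ ≤ 1 / 1000 := exp_small (by linarith)
      linarith
  have hexp : P u - P a ≤ lm j / 500 := by
    have h1 : ∀ i ∈ Finset.range n, 0 ≤ Pr (fun s => L i * max (x i s) 0) a := by
      intro i _
      have := Pr_mono (cont_pos h i) (a := 0) (b := a) ⟨le_rfl, hT⟩ haI ha0
        (fun s _ => pos_nonneg h i s)
      rwa [Pr_zero] at this
    have h2 : P u - P a ≤ (∑ i ∈ Finset.range n, lm i / 900) + (e0 lm + C n * L n) * T := by
      have h3 := Finset.sum_le_sum hbound
      have h4 := Finset.sum_nonneg h1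
      have h5 : (e0 lm + C n * L n) * (u - a) ≤ (e0 lm + C n * L n) * T :=
        mul_le_mul_of_nonneg_left (by linarith) hrate
      simp only [hP]
      linarith
    have h3 : ∑ i ∈ Finset.range n, lm i / 900 ≤ 11 / 10 * lm j / 900 := by
      rw [← Finset.sum_div]
      exact div_le_div_of_nonneg_right (lmsum' h j) (by norm_num)
    have h4 : e0 lm * T ≤ 1 := by
      have e1 := h.nm.e1
      have := h.nm.L1 0
      have e2 := e0_pos (lm := lm)
      have e3 : e0 lm * T ≤ e0 lm * (L 0 + lm 0) :=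
        mul_le_mul_of_nonneg_left (by linarith) e2.le
      have e4 : (1 : ℝ) / 10 ^ 30 ≤ 1 := by norm_num
      linarith
    have h5 : C n * L n * T ≤ 1 := by
      have a1 := h.nm.QL j n (by omega)
      have a2 := h.nm.C1 n
      have a3 := h.nm.Qexp j 2 (-1) (-(1 / 2)) (by
        push_cast
        linarith)
      have a5 := lm_mono h j
      have a6 : Real.exp (-(3 / 2 * lm n)) ≤ Real.exp (-1 * lm j) := by
        refine Real.exp_le_exp.2 ?_
        linarith
      calc C n * L n * T ≤ Real.exp (-1 * lm j) * Q η lm j * Q η lm j := by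
            have := a2.trans a6
            gcongr
        _ = Q η lm j ^ 2 * Real.exp (-1 * lm j) := by ring
        _ ≤ Real.exp (-(1 / 2) * lm j) := a3
        _ ≤ 1 := by rw [Real.exp_le_one_iff]; linarith
    have h6 : (e0 lm + C n * L n) * T = e0 lm * T + C n * L n * T := by ring
    rw [h6] at h2
    linarith
  -- the conclusion
  have hKT : K * (u - a) ≤ 2 * Real.exp (-(5 / 4) * lm j) := by
    have a1 := h.nm.QL j j (by omega)
    have a2 := h.nm.C1 j
    have a3 := h.nm.Qexp j 2 (-(3 / 2)) (-(5 / 4)) (by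
      push_cast
      linarith)
    have a4 : ph lm n ≤ Q η lm j * Real.exp (-(3 / 2) * lm j) := by
      have b1 := h.nm.ph1 j
      have b2 : Real.exp (-(10 ^ 6 * lm j)) ≤ Real.exp (-(3 / 2) * lm j) := by
        refine Real.exp_le_exp.2 ?_
        linarith
      have b3 : (1 : ℝ) ≤ Q η lm j := by
        have := h.nm.Q1 j
        have : (1 : ℝ) ≤ 10 ^ 30 := by norm_num
        linarith
      have b4 : 0 < Real.exp (-(3 / 2) * lm j) := Real.exp_pos _
      calc ph lm n ≤ Real.exp (-(3 / 2) * lm j) := b1.trans b2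
        _ ≤ Q η lm j * Real.exp (-(3 / 2) * lm j) := le_mul_of_one_le_left b4.le b3
    have a5 : L j * C j ≤ Q η lm j * Real.exp (-(3 / 2) * lm j) := by
      have : C j ≤ Real.exp (-(3 / 2) * lm j) := by
        rw [neg_mul]; exact a2
      gcongr
    have a6 : K ≤ 2 * (Q η lm j * Real.exp (-(3 / 2) * lm j)) := by
      rw [hK]; linarith
    calc K * (u - a) ≤ 2 * (Q η lm j * Real.exp (-(3 / 2) * lm j)) * Q η lm j := by
          have : u - a ≤ Q η lm j := by linarith
          have : 0 ≤ u - a := by linarith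
          gcongr
      _ = 2 * (Q η lm j ^ 2 * Real.exp (-(3 / 2) * lm j)) := by ring
      _ ≤ 2 * Real.exp (-(5 / 4) * lm j) := by gcongr
  calc x (j + 1) u ≤ Real.exp (P u - P a) * (K * (u - a)) := key
    _ ≤ Real.exp (lm j / 500) * (2 * Real.exp (-(5 / 4) * lm j)) := by
        have : 0 ≤ K * (u - a) := mul_nonneg hK0 (by linarith)
        gcongr
    _ ≤ Real.exp (lm j / 500) * (Real.exp (lm j / 10) * Real.exp (-(5 / 4) * lm j)) := by
        have : 2 ≤ Real.exp (lm j / 10) := two_le_exp (by linarith)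
        gcongr
    _ = Real.exp (lm j / 500 + (lm j / 10 + -(5 / 4) * lm j)) := by
        rw [Real.exp_add, Real.exp_add]
    _ ≤ Real.exp (-(lm j)) := by
        refine Real.exp_le_exp.2 ?_
        linarith

end Pool.Agent.Y339.LN.POSB
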